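import Pool.Agent.Helper18_X2.Stmts
import Pool.Agent.Helper96_PP.Asm

/-!
# AWC, part X2, module DZ2: DZ with the additional information `M' = ψ⁻¹(M / N)`
-/

open scoped BigOperators

noncomputable section

namespace Pool.Agent.PP.X2.H55

open Pool.Agent.PP Pool.Agent.PP.X2 Pool.Agent.Helper51_AWC Pool.Agent.Helper79_WRA

/-- the map on the quotients -/
theorem grp2 {E G : Type} [Group E] [Finite E] [Group G] [Finite G] (π : E →* G)
    (hπ : Function.Surjective π) (K : Subgroup E) [K.Normal] (N M : Subgroup G) [N.Normal]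
    (hKN : K.map π = N) (hNM : N ≤ M) :
    ∃ ψ : E ⧸ K →* G ⧸ N, Function.Surjective ψ ∧ ψ.ker = (π.ker).map (QuotientGroup.mk' K) ∧
      (M.comap π).map (QuotientGroup.mk' K) = (M.map (QuotientGroup.mk' N)).comap ψ := by
  have hmk : ∀ x : E, QuotientGroup.mk' K x = 1 ↔ x ∈ K := fun x => QuotientGroup.eq_one_iff x
  have hle : K ≤ N.comap π := by
    intro x hx
    rw [← hKN]
    exact ⟨x, hx, rfl⟩
  let ψ : E ⧸ K →* G ⧸ N := QuotientGroup.map K N π hle
  have hψ : ∀ x : E, ψ (QuotientGroup.mk' K x) = QuotientGroup.mk' N (π x) := fun _ => rfl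
  refine ⟨ψ, ?_, ?_, ?_⟩
  · intro q
    obtain ⟨g, rfl⟩ := QuotientGroup.mk'_surjective N q
    obtain ⟨x, rfl⟩ := hπ g
    exact ⟨QuotientGroup.mk' K x, rfl⟩
  · ext q
    obtain ⟨x, rfl⟩ := QuotientGroup.mk'_surjective K q
    rw [MonoidHom.mem_ker, hψ]
    constructor
    · intro h
      have h1 : π x ∈ N := (QuotientGroup.eq_one_iff (π x)).1 h
      rw [← hKN] at h1
      obtain ⟨k, hk, hkx⟩ := h1
      refine ⟨x * k⁻¹, ?_, ?_⟩
      · change π (x * k⁻¹) = 1
        rw [map_mul, map_inv, hkx, mul_inv_cancel]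
      · rw [map_mul, map_inv, (hmk k).2 hk, inv_one, mul_one]
    · rintro ⟨z, hz, he⟩
      have h1 : z⁻¹ * x ∈ K := by
        rw [← hmk, map_mul, map_inv, he, inv_mul_cancel]
      have h2 : π (z⁻¹ * x) ∈ N := by rw [← hKN]; exact ⟨_, h1, rfl⟩
      have h3 : π z = 1 := hz
      rw [map_mul, map_inv, h3, inv_one, one_mul] at h2
      exact (QuotientGroup.eq_one_iff (π x)).2 h2
  · ext q
    obtain ⟨x, rfl⟩ := QuotientGroup.mk'_surjective K q
    rw [Subgroup.mem_comap, hψ]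
    constructor
    · rintro ⟨y, hy, he⟩
      have h1 : ψ (QuotientGroup.mk' K y) = ψ (QuotientGroup.mk' K x) := by rw [he]
      rw [hψ, hψ] at h1
      rw [← h1]
      exact ⟨π y, hy, rfl⟩
    · rintro ⟨m, hm, he⟩
      refine ⟨x, ?_, rfl⟩
      change π x ∈ M
      have h1 : m⁻¹ * π x ∈ N := by
        rw [← QuotientGroup.eq_one_iff]
        change QuotientGroup.mk' N (m⁻¹ * π x) = 1
        rw [map_mul, map_inv, he, inv_mul_cancel]
      have h2 := M.mul_mem hm (hNM h1)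
      rwa [mul_inv_cancel_left] at h2

/-- DZ2 from the statements of part DZ -/
theorem dz2_of (hcov : CovStmt) (hcen : CenStmt) (hm : MatStmt) (hnch : NchStmt) (hsup : SupStmt)
    (hnco : NcoStmt) (hdzq : DzqStmt) (hpsf : PsfStmt) : Dz2Stmt := by
  intro ℓ F _ hF G _ _ N M _ b e hNB hM hNM he heb hpos
  obtain ⟨E, i1, i2, π, K, bE, eE, n, α, hπ, hcentral, hprime, hKinj, hKmap, hNBE, hα, hαb, heE,
    heEb, hposE, hYY⟩ := H18.step1 hcov hcen hm hF N M b e hNB he heb hM hpos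
  have hKn : K.Normal := hNBE.1
  have hKM : K ≤ M.comap π := by
    intro x hx
    apply hNM
    rw [← hKmap]
    exact ⟨x, hx, rfl⟩
  obtain ⟨f, hf1, hf2, hf3⟩ := H18.step2 hnch hsup hnco hdzq hpsf hF K (M.comap π) bE eE n α hNBE
    hα hαb heE heEb (hM.comap π) hKM hposE
  obtain ⟨h1, h2, h3, h4, h5, -, φ, -, -, h8⟩ :=
    H18.grp π hπ hcentral K hKinj N M hKmap hM
  obtain ⟨ψ, p1, p2, p3⟩ := grp2 π hπ K N M hKmap hNM
  refine ⟨E ⧸ K, inferInstance, inferInstance, (π.ker).map (QuotientGroup.mk' K),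
    (M.comap π).map (QuotientGroup.mk' K), ψ, f, p1, p2, p3, h1, ?_, h3, h4, h8, hf1, hf2, ?_⟩
  · rw [h2]; exact hprime
  · rw [h2, ← hYY, hf3, h5]

/-- DZ2. -/
theorem dz2 : Dz2Stmt :=
  dz2_of (H74.covStmt H20.ibc) H74.cen H20.matS H94.nch (H65.sup H20.nls) H96.nco_
    (H59.dzq H96.cl_ (Pool.Agent.Helper58_CL.clu H20.ibc) H96.eps_ H20.blk H20.matS H96.nco_
      H20.nls H20.brm H20.eig H20.ibc) H21.psf

end Pool.Agent.PP.X2.H55
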